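import Pool.Agent.helper90.ZD.SpecB

/-!
# Project zd, module BC3
-/

set_option autoImplicit false

open Complex MeasureTheory

namespace Pool.Agent.ZD

open Pool.Agent.helper84.DM Pool.Agent.helper78.ED Pool.Agent.DH

theorem BC3_MI_nonneg (T η y : ℝ) (W : Finset ℝ) (hT : 0 ≤ T) (hη : 0 ≤ η) :
    0 ≤ MI T W η y := by
  unfold MI
  refine mul_nonneg hT ?_
  refine intervalIntegral.integral_nonneg (by linarith) ?_
  intro u _
  positivity

theorem BC3_cpow (n : ℕ) (hn : n ≠ 0) (u : ℝ) :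
    (n : ℂ) ^ (-((u : ℂ) * I)) = Complex.exp (((-(Real.log n) * u : ℝ) : ℂ) * I) := by
  have hn' : (n : ℂ) ≠ 0 := by exact_mod_cast hn
  rw [Complex.cpow_def_of_ne_zero hn', ← Complex.natCast_log]
  congr 1
  push_cast
  ring

theorem BC3_PL (A : Finset ℕ) (h0 : 0 ∉ A) (u : ℝ) :
    PL A u = ∑ n ∈ A, Complex.exp (((-(Real.log n) * u : ℝ) : ℂ) * I) := by
  unfold PL
  refine Finset.sum_congr rfl ?_
  intro n hn
  have hn0 : n ≠ 0 := by
    rintro rfl
    exact h0 hn
  exact BC3_cpow n hn0 u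

theorem BC3_sum (J : Finset ℤ) (x : ℤ → ℝ) (A : Finset ℕ) (h0 : 0 ∉ A) (u : ℝ) :
    ∑ p ∈ J ×ˢ (A ×ˢ A), Complex.exp ((((x p.1 - Real.log p.2.1 + Real.log p.2.2) * u : ℝ) : ℂ) * I)
      = nu J x u * (PL A u * (starRingEnd ℂ) (PL A u)) := by
  rw [BC3_PL A h0, map_sum]
  unfold nu
  rw [Finset.sum_mul_sum, ← Finset.sum_product', Finset.sum_mul_sum, ← Finset.sum_product']
  refine Finset.sum_congr rfl ?_
  intro p _
  rw [← Complex.exp_conj, ← Complex.exp_add, ← Complex.exp_add]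
  congr 1
  simp only [map_mul, Complex.conj_ofReal, Complex.conj_I]
  push_cast
  ring

theorem BC3 (h1 : BLM_stmt) (h2 : BLE_stmt) : BC3_stmt := by
  classical
  intro T η Dn lam W J x A hT hη hS hW h0 hlam hlamρ
  have hT0 : 0 ≤ T := by linarith
  have hη0 : 0 ≤ η := le_trans (by positivity) hη
  have hDn : 0 ≤ Dn := le_trans (Nat.cast_nonneg _) (hW.2 0)
  have key : ∀ i : ℤ, ∀ n m : ℕ,
      ∑ i' ∈ J, (if |x i - x i' - (Real.log n - Real.log m)| ≤ η then lam ^ 2 else 0)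
        ≤ Dn * MI T W η (x i - Real.log n + Real.log m) := by
    intro i n m
    set y := x i - Real.log n + Real.log m with hy
    have hMI := BC3_MI_nonneg T η y W hT0 hη0
    rw [← Finset.sum_filter]
    have hle : ∑ i' ∈ J.filter (fun i' => |x i - x i' - (Real.log n - Real.log m)| ≤ η), lam ^ 2
        ≤ ∑ i' ∈ J.filter (fun i' => |x i - x i' - (Real.log n - Real.log m)| ≤ η),
          MI T W η y := by
      refine Finset.sum_le_sum ?_
      intro i' hi'
      rw [Finset.mem_filter] at hi'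
      have hxy : |x i' - y| ≤ η := by
        have : x i' - y = -(x i - x i' - (Real.log n - Real.log m)) := by rw [hy]; ring
        rw [this, abs_neg]
        exact hi'.2
      have := h1 T η (x i') y W hT hη hxy
      have h3 := hlamρ i' hi'.1
      have h4 : lam ^ 2 ≤ ‖rho W (x i')‖ ^ 2 := by gcongr
      exact le_trans h4 this
    refine le_trans hle ?_
    rw [Finset.sum_const, nsmul_eq_mul]
    refine mul_le_mul_of_nonneg_right ?_ hMI
    have hW2 := hW.2 y
    refine le_trans ?_ hW2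
    refine le_of_eq ?_
    congr 2
    refine Finset.filter_congr ?_
    intro i' _
    have : x i' - y = -(x i - x i' - (Real.log n - Real.log m)) := by rw [hy]; ring
    rw [this, abs_neg]
  have hL : lam ^ 2 * ∑ i ∈ J, ∑ i' ∈ J, cnt A (x i - x i') η
      ≤ Dn * ∑ p ∈ J ×ˢ (A ×ˢ A), MI T W η (x p.1 - Real.log p.2.1 + Real.log p.2.2) := by
    unfold cnt
    have e1 : lam ^ 2 * ∑ i ∈ J, ∑ i' ∈ J, ∑ n ∈ A, ∑ m ∈ A,
        (if |x i - x i' - (Real.log n - Real.log m)| ≤ η then (1 : ℝ) else 0)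
        = ∑ i ∈ J, ∑ n ∈ A, ∑ m ∈ A, ∑ i' ∈ J,
          (if |x i - x i' - (Real.log n - Real.log m)| ≤ η then lam ^ 2 else 0) := by
      rw [Finset.mul_sum]
      refine Finset.sum_congr rfl ?_
      intro i _
      rw [Finset.sum_comm, Finset.mul_sum]
      refine Finset.sum_congr rfl ?_
      intro n _
      rw [Finset.sum_comm, Finset.mul_sum]
      refine Finset.sum_congr rfl ?_
      intro m _
      rw [Finset.mul_sum]
      refine Finset.sum_congr rfl ?_
      intro i' _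
      split_ifs <;> simp
    rw [e1, Finset.mul_sum, Finset.sum_product]
    refine Finset.sum_le_sum ?_
    intro i _
    rw [Finset.sum_product]
    refine Finset.sum_le_sum ?_
    intro n _
    refine Finset.sum_le_sum ?_
    intro m _
    exact key i n m
  refine le_trans hL ?_
  have hE := h2 (ℤ × ℕ × ℕ) (J ×ˢ (A ×ˢ A))
    (fun p => x p.1 - Real.log p.2.1 + Real.log p.2.2) T η W hT hη0 hS.1
  have hfin : Dn * ∑ p ∈ J ×ˢ (A ×ˢ A), MI T W η (x p.1 - Real.log p.2.1 + Real.log p.2.2)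
      ≤ Dn * (20 * T * η * ∑ t ∈ W, ∑ t' ∈ W, ‖∑ p ∈ J ×ˢ (A ×ˢ A),
        Complex.exp ((((x p.1 - Real.log p.2.1 + Real.log p.2.2) * (t - t') : ℝ) : ℂ) * I)‖) :=
    mul_le_mul_of_nonneg_left hE hDn
  refine le_trans hfin (le_of_eq ?_)
  have e2 : ∀ t t' : ℝ, ‖∑ p ∈ J ×ˢ (A ×ˢ A),
        Complex.exp ((((x p.1 - Real.log p.2.1 + Real.log p.2.2) * (t - t') : ℝ) : ℂ) * I)‖
        = ‖nu J x (t - t')‖ * ‖PL A (t - t')‖ ^ 2 := by
    intro t t'
    rw [BC3_sum J x A h0 (t - t'), norm_mul, norm_mul, RCLike.norm_conj]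
    ring
  simp only [e2]
  ring

end Pool.Agent.ZD
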