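import Pool.Agent.helper7.ZD.Spec
import Pool.Agent.helper97.ND.TDI

/-!
# Row zd:GKE (MP_baa4d7_al): `k(B) = k(BE)` (port of helper97/ND/GKE.lean)
-/

set_option autoImplicit false

namespace Pool.Agent.ND.NY

open Pool.Agent.helper58.DC Pool.Agent.DI Pool.Agent.GR Pool.Agent.OB Pool.Agent.DR Pool.Agent.FI Pool.Agent.FI3 Pool.Agent.FI4 Pool.Agent.FI4I Pool.Agent.LE Pool.Agent.L5 Pool.Agent.NAB
open Pool.Agent.ZB (Pm Om KZ EQ BQ lQ MZc BDK)

theorem GKE_comm {α β : Type} [Finite α] [Finite β] (S : Set α) (f : α → β → ℂ) :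
    ∑ᶠ a ∈ S, ∑ᶠ b, f a b = ∑ᶠ b, ∑ᶠ a ∈ S, f a b := by
  have := finsum_mem_comm f (Set.toFinite S) (Set.finite_univ (α := β))
  simpa only [finsum_mem_univ] using this

theorem GKE_one {α : Type} {S : Set α} (hS : S.Finite) : ∑ᶠ a ∈ S, (1 : ℂ) = ((S.ncard : ℕ) : ℂ) := by
  have h := Pool.Agent.ND.TDI_cnt hS (fun _ => True)
  simpa using h

theorem GKE (hGKN : GKN_stmt) (hGKQ : GKQ_stmt) (hZLC : Pool.Agent.ZB.ZLC_stmt) (hZQU : Pool.Agent.ZB.ZQU_stmt)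
    (hTDC : TDC_stmt) (hCNTL : CNTL_stmt) (hSYL : SYL_stmt) (hTPR : Pool.Agent.FI.TPR_stmt) (hB2 : B2_stmt) : GKE_stmt := by
  classical
  intro p κ M hM G _ _ χ hχ D x hD hKD hMN
  have hp : Fact p.Prime := ⟨hM.pr⟩
  obtain ⟨-, -, -, -, -, -, s7, s8, -⟩ := hSYL p G
  have fin : ∀ K : Subgroup G, (IrrOn K).Finite := fun K => (hB2 G K).1
  have tpr := hTPR p M hM G
  have hBq : ∀ K : Subgroup G, Bq M ⊤ K χ = Blk M χ K := fun K => (tpr.2.2.2.1 χ K).symm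
  have hχ' : χ ∈ IrrOn (⊤ : Subgroup G) := by
    rw [tpr.1]
    exact hχ
  have hCz : ∀ (E' : Subgroup G) (y : G), Cz (⊤ : Subgroup G) y ⊓ nz E' = Cz (nz E') y := by
    intro E' y
    unfold Cz
    rw [top_inf_eq, inf_comm]
  -- locality
  have hloc : ∀ y : G, PEl p y → ∀ φ ∈ IrrOn (Cz (⊤ : Subgroup G) y), ∀ (Q : Subgroup G) (w : G),
      DefL p M (Cz (⊤ : Subgroup G) y) φ Q w → cz Q ≤ Cz (⊤ : Subgroup G) y := by
    intro y hy φ hφ Q w hQ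
    have e1 : cz (Subgroup.zpowers y) = Cz (⊤ : Subgroup G) y := by
      rw [s7]
      unfold Cz
      rw [top_inf_eq]
    have e2 : Subgroup.zpowers y ≤ Cz (⊤ : Subgroup G) y := by
      rw [Subgroup.zpowers_le]
      exact ⟨Subgroup.mem_top y, Subgroup.mem_centralizer_singleton_iff.2 rfl⟩
    obtain ⟨l, hl, hl'⟩ := hCNTL p M hM G (Cz (⊤ : Subgroup G) y) (Subgroup.zpowers y) (s8 y hy) e2 φ
      (by rw [e1, inf_idem]; exact hφ) φ (SB.refl _ _) Q w hQ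
    have e3 : l * y * l⁻¹ = y := by
      have := Subgroup.mem_centralizer_singleton_iff.1 hl.2
      rw [this, mul_inv_cancel_right]
    have e4 : y ∈ Q := by
      have := hl' y (Subgroup.mem_zpowers y)
      rwa [e3] at this
    intro c hc
    refine ⟨Subgroup.mem_top c, Subgroup.mem_centralizer_singleton_iff.2 ?_⟩
    exact ((Subgroup.mem_centralizer_iff.1 hc) y e4).symm
  -- the sum for `⊤`
  have h1 := hGKN p M hM G ⊤ χ
  have h2 : ∀ y : G, PEl p y → (Nat.card (Cz (⊤ : Subgroup G) y) : ℂ) * ∑ᶠ η ∈ Bq M ⊤ (Cz (⊤ : Subgroup G) y) χ, EE p (Cz (⊤ : Subgroup G) y) η η =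
      ∑ᶠ E' : Subgroup G, (Nat.card (Cz (⊤ : Subgroup G) y ⊓ nz E' : Subgroup G) : ℂ) *
        lQ p κ M (⊤ : Subgroup G) (Cz (⊤ : Subgroup G) y ⊓ nz E') E' χ := by
    intro y hy
    rw [← hZLC p κ M hM G χ hχ D x hD hKD _ (hMN _) (hloc y hy), hBq]
    rfl
  have h3 : (Nat.card (⊤ : Subgroup G) : ℂ) * ((Bl M (⊤ : Subgroup G) χ).ncard : ℂ) =
      ∑ᶠ E' : Subgroup G, ∑ᶠ y ∈ {y : G | y ∈ (⊤ : Subgroup G) ∧ PEl p y},
        (Nat.card (Cz (⊤ : Subgroup G) y ⊓ nz E' : Subgroup G) : ℂ) *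
          lQ p κ M (⊤ : Subgroup G) (Cz (⊤ : Subgroup G) y ⊓ nz E') E' χ := by
    rw [h1, ← GKE_comm]
    exact finsum_mem_congr rfl fun y hy => h2 y hy.2
  -- the terms for `E'`
  have h4 : ∀ E' : Subgroup G, ∑ᶠ y ∈ {y : G | y ∈ (⊤ : Subgroup G) ∧ PEl p y},
        (Nat.card (Cz (⊤ : Subgroup G) y ⊓ nz E' : Subgroup G) : ℂ) *
          lQ p κ M (⊤ : Subgroup G) (Cz (⊤ : Subgroup G) y ⊓ nz E') E' χ =
      (Nat.card ((⊤ : Subgroup G) ⊓ nz E' : Subgroup G) : ℂ) * ∑ᶠ η ∈ BQ p κ M (⊤ : Subgroup G) (⊤ ⊓ nz E') E' χ, (1 : ℂ) := by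
    intro E'
    have hn : ∀ y : G, PEl p y → y ∉ nz E' → lQ p κ M (⊤ : Subgroup G) (Cz (⊤ : Subgroup G) y ⊓ nz E') E' χ = 0 := by
      intro y hy hyn
      unfold lQ
      have h5 : BQ p κ M (⊤ : Subgroup G) (Cz (⊤ : Subgroup G) y ⊓ nz E') E' χ = ∅ := by
        ext η
        simp only [Set.mem_empty_iff_false, iff_false]
        intro hη
        exact hyn ((hGKQ p κ M hM G χ hχ D x hD hKD E' y hy).2.2 η hη)
      rw [h5, finsum_mem_empty]
    rw [top_inf_eq, GKE_one ((fin _).subset fun η hη => hη.1)]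
    have h5 : ∑ᶠ y ∈ {y : G | y ∈ (⊤ : Subgroup G) ∧ PEl p y},
        (Nat.card (Cz (⊤ : Subgroup G) y ⊓ nz E' : Subgroup G) : ℂ) *
          lQ p κ M (⊤ : Subgroup G) (Cz (⊤ : Subgroup G) y ⊓ nz E') E' χ =
        ∑ᶠ y ∈ {y : G | y ∈ nz E' ∧ PEl p y}, (Nat.card (Cz (nz E') y) : ℂ) *
          lQ p κ M (⊤ : Subgroup G) (Cz (nz E') y) E' χ := by
      rw [finsum_mem_def, finsum_mem_def]
      refine finsum_congr fun y => ?_
      simp only [Set.indicator_apply, Set.mem_ofPred_eq]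
      by_cases hy : PEl p y
      · rw [if_pos ⟨Subgroup.mem_top y, hy⟩]
        by_cases hyn : y ∈ nz E'
        · rw [if_pos ⟨hyn, hy⟩, hCz]
        · rw [if_neg (fun h => hyn h.1), hn y hy hyn, mul_zero]
      · rw [if_neg (fun h => hy h.2), if_neg (fun h => hy h.2)]
    rw [h5]
    by_cases hne : (BQ p κ M (⊤ : Subgroup G) (nz E') E' χ).Nonempty
    · obtain ⟨φ, hφ⟩ := hne
      have h6 := (hZQU p κ M hM G ⊤ E' χ hχ' D x hD hKD φ (by rw [top_inf_eq]; exact hφ)).1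
      rw [top_inf_eq] at h6
      rw [h6, hGKN p M hM G (nz E') φ]
      refine finsum_mem_congr rfl fun y hy => ?_
      rw [(hGKQ p κ M hM G χ hχ D x hD hKD E' y hy.2).1 hy.1 φ hφ]
      rfl
    · rw [Set.not_nonempty_iff_eq_empty] at hne
      rw [hne, Set.ncard_empty, Nat.cast_zero, mul_zero]
      refine (finsum_mem_congr rfl fun y hy => ?_).trans (finsum_mem_zero _)
      have h6 : BQ p κ M (⊤ : Subgroup G) (Cz (nz E') y) E' χ = ∅ := by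
        ext η
        simp only [Set.mem_empty_iff_false, iff_false]
        intro hη
        obtain ⟨φ, hφ, -⟩ := (hGKQ p κ M hM G χ hχ D x hD hKD E' y hy.2).2.1 hy.1 η hη
        rw [hne] at hφ
        exact hφ
      unfold lQ
      rw [h6, finsum_mem_empty, mul_zero]
  have h5 := hTDC p κ M hM G ⊤ χ hχ' D x hD hKD (fun _ _ => (1 : ℂ)) (fun _ _ _ _ => rfl)
  rw [finsum_congr h4, h5, top_inf_eq, GKE_one ((fin _).subset fun η hη => hη.1)] at h3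
  have h6 : (Nat.card (⊤ : Subgroup G) : ℂ) ≠ 0 := by exact_mod_cast Nat.card_pos.ne'
  have h7 := mul_left_cancel₀ h6 h3
  exact_mod_cast h7

end Pool.Agent.ND.NY
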